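import Pool.Agent.U19.CE.Space

/-!
# Small closures in the compact tree space are Eberlein compact, the space is not Corson compact
-/

set_option autoImplicit false

open Cardinal Filter Topology Set

namespace Pool.Agent.U19.CE

open Pool.Agent.Helper937.Mcs (SD)

variable {Θ β : Type} {η : Θ → ℕ → β} {S : Set Θ}

/-! ### Few branches in the closure of a small set -/

theorem frequently_of_mem_closure {A : Set (KT η S)} {x : Θ} {hx : x ∈ S}
    (hη : Function.Injective η)
    (h : br η S x hx ∈ closure A) (hA : br η S x hx ∉ A) (M : ℕ) :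
    ∃ n ≥ M, nd η S (node η x n) ∈ A := by
  by_contra hno
  push Not at hno
  let V : Set (KT η S) := {s | s.1 (.inr x) = true} ∩
    ⋂ n ∈ Finset.range M, {s | s.1 (.inl (node η x n)) = false}
  have hV : IsOpen V := (isClopen_coord _ _).isOpen.inter
    (isOpen_biInter_finset fun n _ => (isClopen_coord _ _).isOpen)
  have hxV : br η S x hx ∈ V := by
    refine ⟨by simp, ?_⟩
    simp
  obtain ⟨s, hsV, hsA⟩ := mem_closure_iff.1 h V hV hxV
  have h1 : s.1 (.inr x) = true := hsV.1
  have h2 : ∀ n < M, s.1 (.inl (node η x n)) = false := by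
    intro n hn
    have := mem_iInter₂.1 hsV.2 n (Finset.mem_range.2 hn)
    exact this
  by_cases h3 : ∃ σ, s.1 (.inl σ) = true
  · obtain ⟨σ, hσ⟩ := h3
    have h4 : σ = node η x σ.length := ((s.2.b σ x hσ).1 h1).2
    have h5 : M ≤ σ.length := by
      by_contra h6
      have h7 := h2 σ.length (not_le.1 h6)
      rw [← h4, hσ] at h7
      exact absurd h7 (by simp)
    apply hno σ.length h5
    rw [← h4, ← eq_nd hσ]
    exact hsA
  · have h0 : ∀ σ, s.1 (.inl σ) = false := by
      intro σ
      by_contra h4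
      exact h3 ⟨σ, by simpa using h4⟩
    exact hA (eq_br hη h0 h1 ▸ hsA)

/-- The members of `S` whose points lie in the closure of `A`. -/
def brs (η : Θ → ℕ → β) (S : Set Θ) (A : Set (KT η S)) : Set Θ :=
  {x | ∃ hx : x ∈ S, br η S x hx ∈ closure A}

theorem mk_brs_le (hη : Function.Injective η) {A : Set (KT η S)} (hA : #A ≤ 𝔠) :
    #(brs η S A) ≤ 𝔠 := by
  classical
  let B1 : Set Θ := {x | ∃ hx : x ∈ S, br η S x hx ∈ A}
  let B2 : Set Θ := {x | ∀ M : ℕ, ∃ n ≥ M, nd η S (node η x n) ∈ A}
  have hsub : brs η S A ⊆ B1 ∪ B2 := by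
    rintro x ⟨hx, h⟩
    by_cases h1 : br η S x hx ∈ A
    · exact Or.inl ⟨hx, h1⟩
    · exact Or.inr fun M => frequently_of_mem_closure hη h h1 M
  have h1 : #B1 ≤ 𝔠 := by
    refine (mk_le_of_injective (f := fun x : B1 => (⟨br η S x.1 x.2.choose, x.2.choose_spec⟩ : A))
      ?_).trans hA
    intro x y h
    exact Subtype.ext (br_inj (hx := x.2.choose) (hy := y.2.choose) (congrArg Subtype.val h))
  have h2 : #B2 ≤ 𝔠 := by
    let g : B2 → (ℕ → Option A) := fun x n =>
      if h : nd η S (node η x.1 n) ∈ A then some ⟨_, h⟩ else none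
    have hg : Function.Injective g := by
      intro x y hxy
      apply Subtype.ext
      apply hη
      funext k
      obtain ⟨n, hn, hA1⟩ := x.2 (k + 1)
      have h3 := congrFun hxy n
      simp only [g, dif_pos hA1] at h3
      by_cases h4 : nd η S (node η y.1 n) ∈ A
      · rw [dif_pos h4, Option.some.injEq, Subtype.mk.injEq] at h3
        exact node_eq_iff.1 (nd_injective h3) k hn
      · rw [dif_neg h4] at h3
        exact absurd h3 (by simp)
    refine (mk_le_of_injective hg).trans ?_
    have h3 : #(Option A) ≤ 𝔠 := by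
      rw [mk_option]
      exact (add_le_add hA (one_lt_aleph0.le.trans aleph0_le_continuum)).trans
        continuum_add_self.le
    calc #(ℕ → Option A) = #(Option A) ^ ℵ₀ := by simp
      _ ≤ 𝔠 ^ ℵ₀ := power_le_power_right h3
      _ = 𝔠 := continuum_power_aleph0
  calc #(brs η S A) ≤ #(B1 ∪ B2 : Set Θ) := mk_le_mk_of_subset hsub
    _ ≤ #B1 + #B2 := mk_union_le _ _
    _ ≤ 𝔠 + 𝔠 := add_le_add h1 h2
    _ = 𝔠 := by simp

/-! ### Embedding of small closures -/

open Classical in
theorem cont_ind {X : Type} [TopologicalSpace X] (P : X → Prop) (hP : IsClopen {x | P x}) :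
    Continuous fun x => if P x then (1 : ℝ) else 0 := by
  refine Continuous.if ?_ continuous_const continuous_const
  intro a ha
  rw [hP.frontier_eq] at ha
  exact absurd ha (by simp)

/-- If the branches in a closed set `D` form a sigma-discrete family then `D` embeds into a cube
so that all points have finite supports. -/
theorem exists_embedding (hη : Function.Injective η) (D : Set (KT η S))
    (hB : SD η {x | ∃ hx : x ∈ S, br η S x hx ∈ D}) :
    ∃ f : D → (List β ⊕ Θ → ℝ), Continuous f ∧ Function.Injective f ∧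
      (∀ s, (Function.support (f s)).Finite) ∧ ∀ s i, f s i ∈ Icc (0 : ℝ) 1 := by
  classical
  obtain ⟨c, hc⟩ := hB
  set B : Set Θ := {x | ∃ hx : x ∈ S, br η S x hx ∈ D} with hBdef
  let P : List β ⊕ Θ → KT η S → Prop := fun i s => match i with
    | .inl σ => s.1 (.inl σ) = true
    | .inr x => x ∈ B ∧ s.1 (.inr x) = true ∧ ∀ n ∈ Finset.range (c x),
        s.1 (.inl (node η x n)) = false
  have hP : ∀ i, IsClopen {s : KT η S | P i s} := by
    rintro (σ | x)
    · exact isClopen_coord _ _
    · by_cases hx : x ∈ B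
      · have h : {s : KT η S | P (.inr x) s} = {s | s.1 (.inr x) = true} ∩
            ⋂ n ∈ Finset.range (c x), {s | s.1 (.inl (node η x n)) = false} := by
          ext s
          simp only [P, hx, true_and, mem_setOf_eq, mem_inter_iff, mem_iInter]
        rw [h]
        exact (isClopen_coord _ _).inter (isClopen_biInter_finset fun n _ => isClopen_coord _ _)
      · have h : {s : KT η S | P (.inr x) s} = ∅ := by
          ext s
          simp only [P, hx, false_and, mem_setOf_eq, mem_empty_iff_false]
        rw [h]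
        exact isClopen_empty
  refine ⟨fun s i => if P i s.1 then 1 else 0, ?_, ?_, ?_, ?_⟩
  · exact continuous_pi fun i => (cont_ind (P i) (hP i)).comp continuous_subtype_val
  · intro s t hst
    have key : ∀ i, P i s.1 ↔ P i t.1 := by
      intro i
      have := congrFun hst i
      by_cases h1 : P i s.1 <;> by_cases h2 : P i t.1 <;> simp_all
    apply Subtype.ext
    by_cases h : ∃ σ, s.1.1 (.inl σ) = true
    · obtain ⟨σ, hσ⟩ := h
      have h2 : t.1.1 (.inl σ) = true := (key (.inl σ)).1 hσ
      rw [eq_nd hσ, eq_nd h2]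
    · have h0 : ∀ σ, s.1.1 (.inl σ) = false := by
        intro σ
        by_contra h1
        exact h ⟨σ, by simpa using h1⟩
      have h0' : ∀ σ, t.1.1 (.inl σ) = false := by
        intro σ
        by_contra h1
        exact h ⟨σ, (key (.inl σ)).2 (by simpa using h1 : t.1.1 (.inl σ) = true)⟩
      have aux : ∀ u v : D, (∀ σ, u.1.1 (.inl σ) = false) → (∀ σ, v.1.1 (.inl σ) = false) →
          (∀ i, P i u.1 ↔ P i v.1) → ∀ x, u.1.1 (.inr x) = true → u.1 = v.1 := by
        intro u v hu hv hk x hx
        have h3 := eq_br hη hu hx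
        have h4 : x ∈ B := ⟨u.1.2.c x hx, h3 ▸ u.2⟩
        have h5 : P (.inr x) u.1 := ⟨h4, hx, fun n _ => hu _⟩
        have h6 : P (.inr x) v.1 := (hk (.inr x)).1 h5
        rw [h3, eq_br hη hv h6.2.1]
      by_cases h2 : ∃ x, s.1.1 (.inr x) = true
      · obtain ⟨x, hx⟩ := h2
        exact aux s t h0 h0' key x hx
      · by_cases h3 : ∃ x, t.1.1 (.inr x) = true
        · obtain ⟨x, hx⟩ := h3
          exact (aux t s h0' h0 (fun i => (key i).symm) x hx).symm
        · apply Subtype.ext
          funext i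
          rcases i with σ | x
          · rw [h0, h0']
          · have h4 : s.1.1 (.inr x) = false := by
              by_contra h5
              exact h2 ⟨x, by simpa using h5⟩
            have h5 : t.1.1 (.inr x) = false := by
              by_contra h5
              exact h3 ⟨x, by simpa using h5⟩
            rw [h4, h5]
  · intro s
    have hsub : Function.support (fun i => if P i s.1 then (1 : ℝ) else 0) ⊆
        (Sum.inl '' {σ : List β | s.1.1 (.inl σ) = true}) ∪
        (Sum.inr '' {x : Θ | P (.inr x) s.1}) := by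
      rintro (σ | x) hi
      · left
        refine ⟨σ, ?_, rfl⟩
        by_contra h
        exact hi (if_neg h)
      · right
        refine ⟨x, ?_, rfl⟩
        by_contra h
        exact hi (if_neg h)
    refine Set.Finite.subset (Set.Finite.union (Set.Finite.image _ ?_) (Set.Finite.image _ ?_)) hsub
    · exact Set.Subsingleton.finite fun σ hσ τ hτ => s.1.2.a σ τ hσ hτ
    · by_cases h : ∃ σ, s.1.1 (.inl σ) = true
      · obtain ⟨σ, hσ⟩ := h
        have hnode : ∀ x, P (.inr x) s.1 → σ = node η x σ.length := fun x hx =>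
          ((s.1.2.b σ x hσ).1 hx.2.1).2
        refine Set.Finite.of_injOn (f := c) (t := Iic σ.length) ?_ ?_ (finite_Iic _)
        · intro x hx
          rw [mem_Iic]
          by_contra h1
          have h2 := hx.2.2 σ.length (Finset.mem_range.2 (not_le.1 h1))
          rw [← hnode x hx, hσ] at h2
          exact absurd h2 (by simp)
        · intro x hx y hy hxy
          by_contra hne
          obtain ⟨k, hk, hk'⟩ := hc x hx.1 y hy.1 hne hxy
          have h1 : c x ≤ σ.length := by
            by_contra h1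
            have h2 := hx.2.2 σ.length (Finset.mem_range.2 (not_le.1 h1))
            rw [← hnode x hx, hσ] at h2
            exact absurd h2 (by simp)
          exact hk' (node_eq_iff.1 ((hnode x hx).symm.trans (hnode y hy)) k (hk.trans_le h1))
      · have h0 : ∀ σ, s.1.1 (.inl σ) = false := by
          intro σ
          by_contra h1
          exact h ⟨σ, by simpa using h1⟩
        refine Set.Subsingleton.finite fun x hx y hy => ?_
        have h1 := eq_br hη h0 hx.2.1
        have h2 := eq_br hη h0 hy.2.1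
        exact br_inj (h1.symm.trans h2)
  · intro s i
    by_cases h : P i s.1
    · simp [h]
    · simp [h]

/-! ### The whole space is not Corson compact -/

/-- A continuous injection, with points of countable support, of a closed subspace containing the
point at infinity and the points and nodes of `B ⊆ S` shows that `B` is sigma-discrete. -/
theorem sd_of_corson' (hη : Function.Injective η) {B : Set Θ} (hBS : B ⊆ S)
    {D : Set (KT η S)} (hDinf : pinf η S ∈ D) (hDbr : ∀ x (hx : x ∈ S), x ∈ B → br η S x hx ∈ D)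
    (hDnd : ∀ x ∈ B, ∀ n, nd η S (node η x n) ∈ D) {T : Type} (f : D → T → ℝ)
    (hf : Continuous f) (hinj : Function.Injective f)
    (hsupp : ∀ s, (Function.support (f s)).Countable) : SD η B := by
  classical
  -- members of `B` moved by a coordinate
  let mv : T → Set Θ := fun t =>
    {x | ∃ hx : x ∈ B, f ⟨br η S x (hBS hx), hDbr x (hBS hx) hx⟩ t ≠ f ⟨pinf η S, hDinf⟩ t}
  have hmv : ∀ t, (mv t).Countable := by
    intro t
    let E : ℕ → Set Θ := fun k =>
      {x | ∃ hx : x ∈ B, 1 / ((k : ℝ) + 1) ≤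
        |f ⟨br η S x (hBS hx), hDbr x (hBS hx) hx⟩ t - f ⟨pinf η S, hDinf⟩ t|}
    have hE : ∀ k, (E k).Finite := by
      intro k
      by_contra hinf
      have hinf' : (E k).Infinite := hinf
      let x : ℕ → Θ := fun n => (hinf'.natEmbedding _ n : Θ)
      have hx1 : ∀ n, x n ∈ E k := fun n => (hinf'.natEmbedding _ n).2
      have hx2 : Function.Injective x := fun a b h =>
        (hinf'.natEmbedding _).injective (Subtype.ext h)
      have hxB : ∀ n, x n ∈ B := fun n => (hx1 n).choose
      have hx3 : ∀ n, 1 / ((k : ℝ) + 1) ≤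
          |f ⟨br η S (x n) (hBS (hxB n)), hDbr _ _ (hxB n)⟩ t - f ⟨pinf η S, hDinf⟩ t| :=
        fun n => (hx1 n).choose_spec
      have h1 := tendsto_br (η := η) (fun n => hBS (hxB n)) hx2
      have h1' : Tendsto (fun n => (⟨br η S (x n) (hBS (hxB n)), hDbr _ _ (hxB n)⟩ : D)) atTop
          (𝓝 ⟨pinf η S, hDinf⟩) := tendsto_subtype_rng.2 h1
      have h2 : Tendsto (fun n => f ⟨br η S (x n) (hBS (hxB n)), hDbr _ _ (hxB n)⟩ t) atTop
          (𝓝 (f ⟨pinf η S, hDinf⟩ t)) :=
        (((continuous_apply t).comp hf).tendsto _).comp h1'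
      have h3 : Tendsto (fun n =>
          |f ⟨br η S (x n) (hBS (hxB n)), hDbr _ _ (hxB n)⟩ t - f ⟨pinf η S, hDinf⟩ t|)
          atTop (𝓝 0) := by
        have h4 := (h2.sub_const (f ⟨pinf η S, hDinf⟩ t)).abs
        simpa using h4
      have h5 : (1 : ℝ) / ((k : ℝ) + 1) ≤ 0 := ge_of_tendsto' h3 hx3
      have h6 : (0 : ℝ) < 1 / ((k : ℝ) + 1) := Nat.one_div_pos_of_nat
      linarith
    have hsub : mv t ⊆ ⋃ k, E k := by
      rintro x ⟨hx, hne⟩
      obtain ⟨k, hk⟩ := exists_nat_one_div_lt (abs_pos.2 (sub_ne_zero.2 hne))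
      exact mem_iUnion.2 ⟨k, hx, hk.le⟩
    exact (countable_iUnion fun k => (hE k).countable).mono hsub
  let S1 : Set Θ := ⋃ t ∈ Function.support (f ⟨pinf η S, hDinf⟩), mv t
  have hS1 : S1.Countable := (hsupp _).biUnion fun t _ => hmv t
  -- coordinates and levels
  have hstep : ∀ x, x ∈ B → x ∉ S1 → ∃ t m, x ∈ mv t ∧ ∀ n ≥ m, ∃ h : nd η S (node η x n) ∈ D,
      t ∈ Function.support (f ⟨nd η S (node η x n), h⟩) := by
    intro x hx hx1
    have hne : br η S x (hBS hx) ≠ pinf η S := by
      intro h
      have h1 : (pinf η S).1 (.inr x) = true := by rw [← h]; simp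
      exact absurd h1 (by simp [pinf])
    obtain ⟨t, ht⟩ := Function.ne_iff.1 fun h => hne (congrArg Subtype.val
      (hinj (a₁ := ⟨br η S x (hBS hx), hDbr x (hBS hx) hx⟩) (a₂ := ⟨pinf η S, hDinf⟩) h))
    have hxt : x ∈ mv t := ⟨hx, ht⟩
    have h0 : f ⟨pinf η S, hDinf⟩ t = 0 := by
      by_contra h
      exact hx1 (mem_biUnion (show t ∈ Function.support (f ⟨pinf η S, hDinf⟩) from h) hxt)
    rw [h0] at ht
    have h1' : Tendsto (fun n => (⟨nd η S (node η x n), hDnd x hx n⟩ : D)) atTop
        (𝓝 ⟨br η S x (hBS hx), hDbr x (hBS hx) hx⟩) :=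
      tendsto_subtype_rng.2 (tendsto_nd hη (hBS hx))
    have h1 : Tendsto (fun n => f ⟨nd η S (node η x n), hDnd x hx n⟩ t) atTop
        (𝓝 (f ⟨br η S x (hBS hx), hDbr x (hBS hx) hx⟩ t)) :=
      (((continuous_apply t).comp hf).tendsto _).comp h1'
    obtain ⟨m, hm⟩ := eventually_atTop.1 (h1.eventually_ne ht)
    exact ⟨t, m, hxt, fun n hn => ⟨hDnd x hx n, hm n hn⟩⟩
  choose! t m htx htm using hstep
  let C : List β → Set Θ := fun σ =>
    ⋃ h : nd η S σ ∈ D, ⋃ u ∈ Function.support (f ⟨nd η S σ, h⟩), mv u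
  have hC : ∀ σ, (C σ).Countable := fun σ =>
    countable_iUnion fun h => (hsupp _).biUnion fun u _ => hmv u
  have henum : ∀ E : Set Θ, E.Countable → ∃ g : Θ → ℕ, InjOn g E := by
    intro E hE
    exact (Set.countable_iff_exists_injOn.1 hE)
  choose g hg using fun σ => henum (C σ) (hC σ)
  obtain ⟨g1, hg1⟩ := henum S1 hS1
  refine ⟨fun x => if x ∈ S1 then 2 * g1 x + 1 else 2 * Nat.pair (m x) (g (node η x (m x)) x), ?_⟩
  intro x hx y hy hxy hcc
  by_cases h1 : x ∈ S1
  · by_cases h2 : y ∈ S1
    · simp only [h1, h2, if_true] at hcc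
      exact absurd (hg1 h1 h2 (by omega)) hxy
    · simp only [h1, h2, if_true, if_false] at hcc
      omega
  · by_cases h2 : y ∈ S1
    · simp only [h1, h2, if_true, if_false] at hcc
      omega
    · simp only [h1, h2, if_false] at hcc ⊢
      have h3 : Nat.pair (m x) (g (node η x (m x)) x) = Nat.pair (m y) (g (node η y (m y)) y) := by
        omega
      obtain ⟨h4, h5⟩ := Nat.pair_eq_pair.1 h3
      have h6 : m x ≤ Nat.pair (m x) (g (node η x (m x)) x) := Nat.left_le_pair _ _
      by_cases h7 : node η x (m x) = node η y (m y)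
      · exfalso
        apply hxy
        have hxC : x ∈ C (node η x (m x)) := by
          obtain ⟨h8, h9⟩ := htm x hx h1 (m x) le_rfl
          exact mem_iUnion.2 ⟨h8, mem_biUnion h9 (htx x hx h1)⟩
        have hyC : y ∈ C (node η x (m x)) := by
          rw [h7]
          obtain ⟨h8, h9⟩ := htm y hy h2 (m y) le_rfl
          exact mem_iUnion.2 ⟨h8, mem_biUnion h9 (htx y hy h2)⟩
        rw [← h7] at h5
        exact hg _ hxC hyC h5
      · rw [← h4] at h7
        have h8 : ¬ ∀ k < m x, η x k = η y k := fun h => h7 (node_eq_iff.2 h)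
        push Not at h8
        obtain ⟨k, hk, hk'⟩ := h8
        exact ⟨k, by omega, hk'⟩

theorem sd_of_corson (hη : Function.Injective η) {T : Type} (f : KT η S → T → ℝ)
    (hf : Continuous f) (hinj : Function.Injective f)
    (hsupp : ∀ s, (Function.support (f s)).Countable) : SD η S :=
  sd_of_corson' hη (B := S) (D := univ) subset_rfl trivial (fun _ _ _ => trivial)
    (fun _ _ _ => trivial) (fun s => f s.1) (hf.comp continuous_subtype_val)
    (fun _ _ h => Subtype.ext (hinj h)) fun s => hsupp s.1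

/-- A countable family is sigma-discrete. -/
theorem sd_of_countable {B : Set Θ} (hB : B.Countable) : SD η B := by
  obtain ⟨g, hg⟩ := Set.countable_iff_exists_injOn.1 hB
  exact ⟨g, fun x hx y hy hxy h => absurd (hg hx hy h) hxy⟩

/-- Corson closures of small sets make small subfamilies sigma-discrete. -/
theorem sd_of_closures (hη : Function.Injective η)
    (h : ∀ A : Set (KT η S), #A ≤ 𝔠 → ∃ (Γ : Type) (f : closure A → (Γ → ℝ)), Continuous f ∧
      Function.Injective f ∧ ∀ x, (Function.support (f x)).Countable)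
    {B : Set Θ} (hBS : B ⊆ S) (hB : #B ≤ 𝔠) : SD η B := by
  by_cases hc : B.Countable
  · exact sd_of_countable hc
  let A : Set (KT η S) := range fun p : B × ℕ => nd η S (node η p.1.1 p.2)
  have hA : #A ≤ 𝔠 := by
    refine mk_range_le.trans ?_
    rw [mk_prod, lift_id, lift_id, mk_nat]
    exact (mul_le_mul' hB aleph0_le_continuum).trans_eq (by simp)
  obtain ⟨Γ, f, h1, h2, h3⟩ := h A hA
  have hnd : ∀ x ∈ B, ∀ n, nd η S (node η x n) ∈ closure A := fun x hx n =>
    subset_closure ⟨(⟨x, hx⟩, n), rfl⟩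
  have hbr : ∀ x (hx : x ∈ S), x ∈ B → br η S x hx ∈ closure A := fun x hx hxB =>
    isClosed_closure.mem_of_tendsto (tendsto_nd hη hx) (Eventually.of_forall fun n => hnd x hxB n)
  have hinf : pinf η S ∈ closure A := by
    have hBinf : B.Infinite := fun hf => hc hf.countable
    exact isClosed_closure.mem_of_tendsto
      (tendsto_br (η := η) (x := fun n => (hBinf.natEmbedding _ n : Θ))
        (fun n => hBS (hBinf.natEmbedding _ n).2)
        (fun a b h => (hBinf.natEmbedding _).injective (Subtype.ext h)))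
      (Eventually.of_forall fun n => hbr _ _ (hBinf.natEmbedding _ n).2)
  exact sd_of_corson' hη hBS hinf hbr hnd f h1 h2 h3

/-- The main construction. If every subfamily of cardinality at most the continuum is
sigma-discrete, but the whole family is not, then the compact tree space has the following
properties. -/
theorem main (hη : Function.Injective η) (hsmall : ∀ B ⊆ S, #B ≤ 𝔠 → SD η B) (hS : ¬ SD η S) :
    ∃ (X : Type) (_ : TopologicalSpace X) (_ : CompactSpace X) (_ : T2Space X),
      (∀ A : Set X, #A ≤ 𝔠 → ∃ (Γ : Type) (f : closure A → (Γ → ℝ)), Continuous f ∧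
        Function.Injective f ∧ (∀ x, (Function.support (f x)).Finite) ∧
        ∀ x γ, f x γ ∈ Icc (0 : ℝ) 1) ∧
      ¬ ∃ (Γ : Type) (f : X → (Γ → ℝ)), Continuous f ∧ Function.Injective f ∧
        ∀ x, (Function.support (f x)).Countable := by
  refine ⟨KT η S, inferInstance, inferInstance, inferInstance, ?_, ?_⟩
  · intro A hA
    obtain ⟨f, h⟩ := exists_embedding hη (closure A)
      (hsmall (brs η S A) (fun x hx => hx.1) (mk_brs_le hη hA))
    exact ⟨_, f, h⟩
  · rintro ⟨T, f, hf, hinj, hsupp⟩
    exact hS (sd_of_corson hη f hf hinj hsupp)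

/-- Bounded families are sigma-discrete, so the hypothesis of `main` holds for a non-reflecting
family. -/
theorem small_of_nonReflecting {Θ β : Type} [LinearOrder Θ] {η : Θ → ℕ → β} {S : Set Θ}
    (hb : ∀ g : Set ℕ → Θ, ∃ γ, ∀ A, g A < γ) (hSD : ∀ γ, SD η (S ∩ Iio γ)) :
    ∀ B ⊆ S, #B ≤ 𝔠 → SD η B := by
  intro B hBS hB
  have h1 : #B ≤ #(Set ℕ) := by
    rw [mk_set, mk_nat, two_power_aleph0]
    exact hB
  obtain ⟨e⟩ := (Cardinal.le_def _ _).1 h1
  rcases B.eq_empty_or_nonempty with h0 | ⟨b, hb0⟩
  · exact ⟨fun _ => 0, fun x hx => absurd hx (by simp [h0])⟩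
  obtain ⟨γ, hγ⟩ := hb (Function.extend e (fun x => x.1) fun _ => b)
  obtain ⟨c, hc⟩ := hSD γ
  have h2 : ∀ x ∈ B, x ∈ S ∩ Iio γ := by
    intro x hx
    refine ⟨hBS hx, ?_⟩
    have h3 := hγ (e ⟨x, hx⟩)
    rw [e.injective.extend_apply] at h3
    exact h3
  exact ⟨c, fun x hx y hy => hc x (h2 x hx) y (h2 y hy)⟩

end Pool.Agent.U19.CE
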