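import Pool.Agent.Helper937.McsDef

/-!
# A compact tree space built from a set of sequences

`KT η S` is the one-point compactification of the space of all finite sequences in `β` (isolated
points) together with the members of `S`, where the basic neighbourhoods of `x ∈ S` consist of `x`
and of all but finitely many initial segments of `η x`. It is represented as a closed subset of
a Cantor cube.
-/

set_option autoImplicit false

open Cardinal Filter Topology Set

namespace Pool.Agent.U19.CE

open Pool.Agent.Helper937.Mcs (SD)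

variable {Θ β : Type}

/-- The finite sequence of the first `n` values of the sequence `η x`. -/
def node (η : Θ → ℕ → β) (x : Θ) (n : ℕ) : List β := (List.range n).map (η x)

theorem length_node (η : Θ → ℕ → β) (x : Θ) (n : ℕ) : (node η x n).length = n := by
  simp [node]

theorem node_eq_iff {η : Θ → ℕ → β} {x y : Θ} {n : ℕ} :
    node η x n = node η y n ↔ ∀ k < n, η x k = η y k := by
  simp [node]

theorem node_inj {η : Θ → ℕ → β} {x : Θ} {n m : ℕ} (h : node η x n = node η x m) : n = m := by
  rw [← length_node η x n, h, length_node]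

/-- The (closed) conditions describing the points of the space. -/
structure Adm (η : Θ → ℕ → β) (S : Set Θ) (s : List β ⊕ Θ → Bool) : Prop where
  a : ∀ σ τ, s (.inl σ) = true → s (.inl τ) = true → σ = τ
  b : ∀ σ x, s (.inl σ) = true → (s (.inr x) = true ↔ (x ∈ S ∧ σ = node η x σ.length))
  c : ∀ x, s (.inr x) = true → x ∈ S
  d : ∀ x y N, η x N ≠ η y N → s (.inr x) = true → s (.inr y) = true →
    ∃ n ∈ Finset.range (N + 1), s (.inl (node η x n)) = true

/-- The compact tree space. -/
abbrev KT (η : Θ → ℕ → β) (S : Set Θ) : Type := {s : List β ⊕ Θ → Bool // Adm η S s}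

theorem isClosed_coord {I : Type} (i : I) (b : Bool) : IsClosed {s : I → Bool | s i = b} :=
  isClosed_eq (continuous_apply i) continuous_const

theorem isOpen_coord {I : Type} (i : I) (b : Bool) : IsOpen {s : I → Bool | s i = b} :=
  (isOpen_discrete ({b} : Set Bool)).preimage
    (continuous_apply i : Continuous fun s : I → Bool => s i)

theorem isClosed_KT (η : Θ → ℕ → β) (S : Set Θ) :
    IsClosed {s : List β ⊕ Θ → Bool | Adm η S s} := by
  have h : {s : List β ⊕ Θ → Bool | Adm η S s} =
      {s | ∀ σ τ, s (.inl σ) = true → s (.inl τ) = true → σ = τ} ∩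
      {s | ∀ σ x, s (.inl σ) = true → (s (.inr x) = true ↔ (x ∈ S ∧ σ = node η x σ.length))} ∩
      {s | ∀ x, s (.inr x) = true → x ∈ S} ∩
      {s | ∀ x y N, η x N ≠ η y N → s (.inr x) = true → s (.inr y) = true →
        ∃ n ∈ Finset.range (N + 1), s (.inl (node η x n)) = true} := by
    ext s
    constructor
    · rintro ⟨h1, h2, h3, h4⟩
      exact ⟨⟨⟨h1, h2⟩, h3⟩, h4⟩
    · rintro ⟨⟨⟨h1, h2⟩, h3⟩, h4⟩
      exact ⟨h1, h2, h3, h4⟩
  rw [h]
  refine ((IsClosed.inter ?_ ?_).inter ?_).inter ?_
  · simp only [setOf_forall]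
    exact isClosed_iInter fun σ => isClosed_iInter fun τ =>
      isClosed_imp (isOpen_coord _ _) (isClosed_imp (isOpen_coord _ _) isClosed_const)
  · simp only [setOf_forall]
    refine isClosed_iInter fun σ => isClosed_iInter fun x =>
      isClosed_imp (isOpen_coord _ _) ?_
    by_cases hx : x ∈ S ∧ σ = node η x σ.length
    · have h1 : (x ∈ S ∧ σ = node η x σ.length) = True := eq_true hx
      simpa only [h1, iff_true] using isClosed_coord (Sum.inr x : List β ⊕ Θ) true
    · have h1 : (x ∈ S ∧ σ = node η x σ.length) = False := eq_false hx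
      simpa only [h1, iff_false, Bool.not_eq_true] using
        isClosed_coord (Sum.inr x : List β ⊕ Θ) false
  · simp only [setOf_forall]
    exact isClosed_iInter fun x => isClosed_imp (isOpen_coord _ _) isClosed_const
  · simp only [setOf_forall]
    refine isClosed_iInter fun x => isClosed_iInter fun y => isClosed_iInter fun N =>
      isClosed_iInter fun _ => isClosed_imp (isOpen_coord _ _) (isClosed_imp (isOpen_coord _ _) ?_)
    have h2 : {s : List β ⊕ Θ → Bool | ∃ n ∈ Finset.range (N + 1), s (.inl (node η x n)) = true}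
        = ⋃ n ∈ Finset.range (N + 1), {s | s (.inl (node η x n)) = true} := by
      ext s; simp
    rw [h2]
    exact isClosed_biUnion_finset fun n _ => isClosed_coord _ _

instance instCompactKT (η : Θ → ℕ → β) (S : Set Θ) : CompactSpace (KT η S) :=
  isCompact_iff_compactSpace.mp (isClosed_KT η S).isCompact

/-- The point at infinity. -/
def pinf (η : Θ → ℕ → β) (S : Set Θ) : KT η S :=
  ⟨fun _ => false, by simp, by simp, by simp, by simp⟩

open Classical in
/-- The isolated point given by a finite sequence. -/
noncomputable def nd (η : Θ → ℕ → β) (S : Set Θ) (σ : List β) : KT η S :=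
  ⟨Sum.elim (fun τ => decide (τ = σ)) (fun x => decide (x ∈ S ∧ σ = node η x σ.length)), by
    refine ⟨?_, ?_, ?_, ?_⟩
    · simp
    · intro τ x h
      have h1 : τ = σ := by simpa using h
      subst h1
      simp
    · intro x h
      have h1 : x ∈ S ∧ σ = node η x σ.length := by simpa using h
      exact h1.1
    · intro x y N hN h h'
      have h1 : x ∈ S ∧ σ = node η x σ.length := by simpa using h
      have h2 : y ∈ S ∧ σ = node η y σ.length := by simpa using h'
      have h3 := node_eq_iff.1 (h1.2.symm.trans h2.2)
      refine ⟨σ.length, ?_, ?_⟩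
      · rw [Finset.mem_range, Nat.lt_succ_iff]
        by_contra hc
        exact hN (h3 N (not_le.1 hc))
      · simpa using h1.2.symm⟩

open Classical in
/-- The point given by a member of `S`. -/
noncomputable def br (η : Θ → ℕ → β) (S : Set Θ) (x : Θ) (hx : x ∈ S) : KT η S :=
  ⟨Sum.elim (fun _ => false) (fun y => decide (y = x)), by
    refine ⟨by simp, by simp, ?_, ?_⟩
    · intro y h
      have h1 : y = x := by simpa using h
      exact h1 ▸ hx
    · intro y z N hN h h'
      have h1 : y = x := by simpa using h
      have h2 : z = x := by simpa using h'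
      exact absurd (by rw [h1, h2]) hN⟩

section

variable {η : Θ → ℕ → β} {S : Set Θ}

@[simp] theorem nd_inl {σ τ : List β} : (nd η S σ).1 (.inl τ) = true ↔ τ = σ := by
  simp [nd]

@[simp] theorem nd_inr {σ : List β} {x : Θ} :
    (nd η S σ).1 (.inr x) = true ↔ (x ∈ S ∧ σ = node η x σ.length) := by
  simp [nd]

@[simp] theorem br_inl {x : Θ} {hx : x ∈ S} {τ : List β} : (br η S x hx).1 (.inl τ) = false := by
  simp [br]

@[simp] theorem br_inr {x y : Θ} {hx : x ∈ S} : (br η S x hx).1 (.inr y) = true ↔ y = x := by
  simp [br]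

theorem nd_injective : Function.Injective (nd η S) := by
  intro σ τ h
  have h1 : (nd η S τ).1 (.inl σ) = true := by rw [← h]; simp
  simpa using h1

theorem br_inj {x y : Θ} {hx : x ∈ S} {hy : y ∈ S} (h : br η S x hx = br η S y hy) : x = y := by
  have h1 : (br η S y hy).1 (.inr x) = true := by rw [← h]; simp
  simpa using h1

theorem eq_nd {s : KT η S} {σ : List β} (h : s.1 (.inl σ) = true) : s = nd η S σ := by
  apply Subtype.ext
  funext i
  rw [Bool.eq_iff_iff]
  rcases i with τ | x
  · rw [nd_inl]
    exact ⟨fun h' => s.2.a τ σ h' h, fun h' => h' ▸ h⟩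
  · rw [nd_inr]
    exact s.2.b σ x h

theorem eq_br (hη : Function.Injective η) {s : KT η S} (h0 : ∀ σ, s.1 (.inl σ) = false) {x : Θ}
    (h : s.1 (.inr x) = true) : s = br η S x (s.2.c x h) := by
  apply Subtype.ext
  funext i
  rw [Bool.eq_iff_iff]
  rcases i with τ | y
  · simp [h0]
  · rw [br_inr]
    refine ⟨fun h' => ?_, fun h' => h' ▸ h⟩
    by_contra hne
    obtain ⟨N, hN⟩ := Function.ne_iff.1 fun h2 : η y = η x => hne (hη h2)
    obtain ⟨n, -, hn⟩ := s.2.d y x N hN h' h
    rw [h0] at hn
    exact absurd hn (by simp)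

theorem cases (hη : Function.Injective η) (s : KT η S) :
    (∃ σ, s = nd η S σ) ∨ (∃ x, ∃ hx : x ∈ S, s = br η S x hx) ∨ s = pinf η S := by
  by_cases h : ∃ σ, s.1 (.inl σ) = true
  · obtain ⟨σ, hσ⟩ := h
    exact Or.inl ⟨σ, eq_nd hσ⟩
  · have h0 : ∀ σ, s.1 (.inl σ) = false := by
      intro σ
      by_contra h1
      exact h ⟨σ, by simpa using h1⟩
    by_cases h2 : ∃ x, s.1 (.inr x) = true
    · obtain ⟨x, hx⟩ := h2
      exact Or.inr (Or.inl ⟨x, s.2.c x hx, eq_br hη h0 hx⟩)
    · refine Or.inr (Or.inr (Subtype.ext (funext fun i => ?_)))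
      rcases i with τ | y
      · exact h0 τ
      · by_contra h1
        exact h2 ⟨y, by simpa [pinf] using h1⟩

theorem continuous_coord (i : List β ⊕ Θ) : Continuous fun s : KT η S => s.1 i :=
  (continuous_apply i).comp continuous_subtype_val

theorem isClopen_coord (i : List β ⊕ Θ) (b : Bool) : IsClopen {s : KT η S | s.1 i = b} :=
  (isClopen_discrete ({b} : Set Bool)).preimage (continuous_coord i)

/-- The initial segments of `η x` converge to `x`. -/
theorem tendsto_nd (hη : Function.Injective η) {x : Θ} (hx : x ∈ S) :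
    Tendsto (fun n => nd η S (node η x n)) atTop (𝓝 (br η S x hx)) := by
  rw [tendsto_subtype_rng, tendsto_pi_nhds]
  intro i
  apply tendsto_nhds_of_eventually_eq
  rcases i with τ | y
  · filter_upwards [eventually_gt_atTop τ.length] with n hn
    rw [Bool.eq_iff_iff, nd_inl]
    simp only [br_inl, Bool.false_eq_true, iff_false]
    intro h
    rw [h, length_node] at hn
    exact lt_irrefl _ hn
  · by_cases hy : y = x
    · subst hy
      filter_upwards with n
      rw [Bool.eq_iff_iff, nd_inr, br_inr]
      simp [hx, length_node]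
    · obtain ⟨N, hN⟩ := Function.ne_iff.1 fun h2 : η y = η x => hy (hη h2)
      filter_upwards [eventually_gt_atTop N] with n hn
      rw [Bool.eq_iff_iff, nd_inr, br_inr]
      simp only [hy, iff_false, not_and, length_node]
      intro _ h
      exact hN (node_eq_iff.1 h N hn).symm

/-- Distinct members of `S` converge to the point at infinity. -/
theorem tendsto_br {x : ℕ → Θ} (hx : ∀ n, x n ∈ S) (hinj : Function.Injective x) :
    Tendsto (fun n => br η S (x n) (hx n)) atTop (𝓝 (pinf η S)) := by
  rw [tendsto_subtype_rng, tendsto_pi_nhds]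
  intro i
  apply tendsto_nhds_of_eventually_eq
  rcases i with τ | y
  · filter_upwards with n
    simp [pinf]
  · have h : ∀ᶠ n in atTop, x n ≠ y := by
      by_cases hy : ∃ m, x m = y
      · obtain ⟨m, hm⟩ := hy
        filter_upwards [eventually_gt_atTop m] with n hn h
        exact hn.ne' (hinj (h.trans hm.symm))
      · filter_upwards with n h
        exact hy ⟨n, h⟩
    filter_upwards [h] with n hn
    rw [Bool.eq_iff_iff, br_inr]
    simp only [pinf, Bool.false_eq_true, iff_false]
    exact fun h => hn h.symm

end

end Pool.Agent.U19.CE
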